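import Pool.Agent.N184.AF.Defs

/-!
# Kato's conjecture for the fibres of projective families: definitions

`B` is a scheme of finite type over `ℤ` and `𝒴` a projective scheme over `B`, for example the universal
family over a Hilbert scheme. A point `y` of `B` is called SNCL if the geometric fibre `Y` at `y` is a
simple normal crossing variety which is the underlying scheme of an SNCL scheme over a log point (that is,
if `Y` is `d`-semistable).
-/

set_option autoImplicit false

open AlgebraicGeometry Pool.Agent.Y143

namespace Pool.Agent.N184.KB

/-- The prime number `p` is invertible in the residue field of `B` at `y`. -/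
def IsInvertibleAt {B : Scheme.{0}} (p : ℕ) (y : B) : Prop :=
  y ∈ B.basicOpen ((p : ℕ) : Γ(B, ⊤))

/-- The residue field of `B` at `y` has characteristic zero. -/
def IsCharZeroAt {B : Scheme.{0}} (y : B) : Prop := ∀ p : ℕ, p.Prime → IsInvertibleAt p y

section

variable {B : Scheme.{0}} {Ω : ℕ → Type} [∀ ℓ, Field (Ω ℓ)]

/-- Generic triviality: for every point `ξ` of `B` there is a closed subset `T'` not containing `ξ` such
that for all specializations `y` of `ξ` outside `T'`: if `y` is SNCL then so is `ξ`, and for every `ℓ` which
is invertible at `y` the cohomology groups of the strata of the geometric fibres at `ξ` and at `y` are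
the same. (The family is equisingular over a dense open subset of the closure of `ξ`, and
`d`-semistability is a constructible condition.) -/
def IsGenericallyTrivial (sncl : B → Prop)
    (strata : ∀ ℓ : ℕ, B → StrataData.{0, 0} (Ω ℓ) Unit) : Prop :=
  ∀ ξ : B, ∃ T' : TopologicalSpace.Closeds B, ξ ∉ T' ∧ ∀ y : B, ξ ⤳ y → y ∉ T' → sncl y →
    sncl ξ ∧ ∀ ℓ : ℕ, ℓ.Prime → IsInvertibleAt ℓ y → AF.Corresponds (strata ℓ ξ) (strata ℓ y)

/-- Kato's conjecture in residue characteristic zero (a theorem by Hodge theory, due to Steenbrink,
Fujisawa and Nakayama), on the `E_2` term of the weight spectral sequence. -/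
def HoldsInCharZero (sncl : B → Prop)
    (strata : ∀ ℓ : ℕ, B → StrataData.{0, 0} (Ω ℓ) Unit) : Prop :=
  ∀ ξ : B, sncl ξ → IsCharZeroAt ξ → ∀ ℓ : ℕ, ℓ.Prime → AF.HasMonodromyIso (strata ℓ ξ)

/-- A projective family over `B`, with its SNCL points; `strata ℓ y` is the cohomology with
coefficients in `Ω ℓ` of the strata of the geometric fibre at an SNCL point `y`. -/
structure ProjectiveFamily (B : Scheme.{0}) (Ω : ℕ → Type) [∀ ℓ, Field (Ω ℓ)] where
  IsSNCL : B → Prop
  strata : ∀ ℓ : ℕ, B → StrataData.{0, 0} (Ω ℓ) Unit
  generic : IsGenericallyTrivial IsSNCL strata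
  charZero : HoldsInCharZero IsSNCL strata

end

/-- The log `ℓ`-adic cohomology of a projective SNCL scheme over a log point: the cohomology of the
strata, the log cohomology groups `V q` with the monodromy operator `N` and the weight filtration `P`,
and the weight spectral sequence (which degenerates at `E_2`). -/
structure LogModel (Ω : Type) [Field Ω] extends StrataData.{0, 0} Ω Unit where
  log : GenericData toStrataData
  weightSequence : log.HasWeightSequence
  monodromy : log.HasMonodromy

variable {Ω : Type} [Field Ω] (X : LogModel Ω)

/-- The log cohomology group `H^q`. -/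
abbrev LogModel.V (q : ℕ) : Type := X.log.V q

/-- The monodromy operator on `H^q`. -/
def LogModel.N (q : ℕ) : Module.End Ω (X.V q) := X.log.N q

/-- The weight filtration on `H^q`. -/
def LogModel.P (q : ℕ) : ℤ → Submodule Ω (X.V q) := X.log.W q

/-- Kato's assertion: for every `q`, the weight filtration of `H^q` (centred at `q`) is the monodromy
filtration of `N`. -/
def LogModel.WeightIsMonodromy : Prop :=
  ∀ q : ℕ, IsMonodromyFiltration (X.N q) (fun a => X.P q (q + a))

end Pool.Agent.N184.KB
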