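import Pool.Agent.N184.KB.Defs
import Pool.Agent.N184.AF.Transfer
import Pool.Agent.N184.AF.Alg

/-!
# Kato's conjecture for the fibres of projective families in large characteristic
-/

set_option autoImplicit false

open AlgebraicGeometry Pool.Agent.Y143 TopologicalSpace

namespace Pool.Agent.N184.KB

section Model

variable {Ω : Type} [Field Ω] (X : LogModel Ω)

lemma cut_of' (r : ℤ) {x : X.C} {b : ℕ} (h : InColumn r b) : X.cut r x b = x b := by
  classical
  change (if InColumn r b then x b else 0) = x b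
  rw [if_pos h]

lemma cut_of_not' (r : ℤ) {x : X.C} {b : ℕ} (h : ¬ InColumn r b) : X.cut r x b = 0 := by
  classical
  change (if InColumn r b then x b else 0) = 0
  rw [if_neg h]

lemma cut_id' {a : ℕ} {w : ℤ} {x : X.C} (hx : x ∈ X.E₁ (-a) w) {k : ℕ} (hk : k ≤ a) :
    X.cut (-a + 2 * k) x = x := by
  funext b
  by_cases hc : InColumn (-(a : ℤ) + 2 * k) b
  · rw [cut_of' X _ hc]
  · rw [cut_of_not' X _ hc]
    symm
    apply (hx b).2
    rintro ⟨h1, h2⟩
    apply hc
    refine ⟨?_, by omega⟩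
    rw [abs_neg, Nat.abs_cast] at h1
    rw [abs_le]
    constructor <;> omega

lemma P_cast {i : ℕ} {w w' : ℤ} (h : w = w') {v : X.V i} (hv : v ∈ X.P i w) : v ∈ X.P i w' := by
  subst h; exact hv

lemma sp_cast' {i : ℕ} {w w' : ℤ} (h : w = w') {v : X.V i} {x : X.C}
    (hv : (v, x) ∈ X.log.sp i w) : (v, x) ∈ X.log.sp i w' := by
  subst h; exact hv

lemma N_pow_sp' {m a : ℕ} {v : X.V m} {x : X.C} (h : (v, x) ∈ X.log.sp m ((m : ℤ) + a)) (k : ℕ)
    (hk : k ≤ a) : ((X.N m ^ k) v, x) ∈ X.log.sp m ((m : ℤ) + a - 2 * k) := by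
  have hx := ((X.weightSequence m).sp_mem _ v x h).2.1
  rw [show (m : ℤ) - (m + a) = -a by ring] at hx
  induction k with
  | zero => simpa using h
  | succ k ih =>
    have h1 := (X.monodromy m).sp_N _ _ _ (ih (by omega))
    have h2 : (X.log.N m ((X.N m ^ k) v), X.cut (-a + 2 * ((k + 1 : ℕ) : ℤ)) x) ∈
        X.log.sp m ((m : ℤ) + a - 2 * k - 2) := by
      rwa [show (m : ℤ) - ((m : ℤ) + a - 2 * k) + 2 = -a + 2 * ((k + 1 : ℕ) : ℤ) by
        push_cast; ring] at h1
    rw [cut_id' X hx hk] at h2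
    rw [pow_succ', Module.End.mul_apply]
    exact sp_cast' X (by push_cast; ring) h2

/-- Kato's assertion from the `E_2` term. -/
theorem weightIsMonodromy_of (h : AF.HasMonodromyIso X.toStrataData) : X.WeightIsMonodromy := by
  intro m
  have G := X.weightSequence m
  refine ⟨fun a b hab => G.W_mono (by omega), ?_, ?_, ?_, ?_, ?_⟩
  · obtain ⟨w, hw⟩ := G.W_bot
    refine ⟨w - m, ?_⟩
    change X.log.W m ((m : ℤ) + (w - m)) = ⊥
    rw [show (m : ℤ) + (w - m) = w by ring, hw]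
  · obtain ⟨w, hw⟩ := G.W_top
    refine ⟨w - m, ?_⟩
    change X.log.W m ((m : ℤ) + (w - m)) = ⊤
    rw [show (m : ℤ) + (w - m) = w by ring, hw]
  · intro a v hv
    obtain ⟨x, hx⟩ := G.sp_left _ v hv
    exact P_cast X (by ring) (G.sp_mem _ _ _ ((X.monodromy m).sp_N _ _ _ hx)).1
  · intro a v hv hN
    obtain ⟨x, hx⟩ := G.sp_left _ v hv
    have h1 := N_pow_sp' X hx a le_rfl
    have h2 := (G.sp_ker _ _ _ h1).1 (P_cast X (by ring) hN)
    have h3 := (G.sp_mem _ _ _ hx).2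
    rw [show (m : ℤ) - ((m : ℤ) + a - 2 * a) = a by ring,
      show (m : ℤ) + a - 2 * a = m - a by ring] at h2
    rw [show (m : ℤ) - (m + a) = -a by ring] at h3
    have h5 := (h a m).1 x h3 (by simpa using h2)
    have h6 := (G.sp_ker _ _ _ hx).2 (by rwa [show (m : ℤ) - (m + a) = -a by ring])
    exact P_cast X (by ring) h6
  · intro a v hv
    obtain ⟨y, hy⟩ := G.sp_left _ v hv
    have h1 := (G.sp_mem _ _ _ hy).2
    rw [show (m : ℤ) - (m + -a) = a by ring, show (m : ℤ) + -a = m - a by ring] at h1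
    obtain ⟨x, hx, hx'⟩ := (h a m).2 y h1
    obtain ⟨v', hv'⟩ := G.sp_right ((m : ℤ) + a) x (by
      rwa [show (m : ℤ) - (m + a) = -a by ring])
    refine ⟨v', (G.sp_mem _ _ _ hv').1, ?_⟩
    have h2 := N_pow_sp' X hv' a le_rfl
    have h3 : (v - (X.N m ^ a) v', y - x) ∈ X.log.sp m ((m : ℤ) + -a) :=
      Submodule.sub_mem _ hy (sp_cast' X (show (m : ℤ) + a - 2 * a = m + -a by ring) h2)
    have h6 := (G.sp_ker _ _ _ h3).2 (by
      rw [show (m : ℤ) - (m + -a) = a by ring, show (m : ℤ) + -a = m - a by ring]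
      simpa using hx')
    exact P_cast X (by ring) h6

end Model

section Base

variable {B : Scheme.{0}}

lemma isInvertibleAt_iff {p : ℕ} {y : B} :
    IsInvertibleAt p y ↔ ((p : ℕ) : B.presheaf.stalk y) ∉ IsLocalRing.maximalIdeal _ := by
  unfold IsInvertibleAt
  rw [Scheme.mem_basicOpen_top, map_natCast, IsLocalRing.mem_maximalIdeal, mem_nonunits_iff,
    not_not]

lemma isInvertibleAt_unique {p r : ℕ} {y : B} (hp : p.Prime) (hr : r.Prime)
    (h1 : ¬ IsInvertibleAt p y) (h2 : ¬ IsInvertibleAt r y) : r = p := by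
  rw [isInvertibleAt_iff, not_not] at h1 h2
  exact AF.prime_unique (Ideal.IsPrime.ne_top inferInstance) hp hr h1 h2

lemma isInvertibleAt_of_specializes {p : ℕ} {ξ y : B} (h : ξ ⤳ y) (hy : IsInvertibleAt p y) :
    IsInvertibleAt p ξ :=
  h.mem_open (B.basicOpen ((p : ℕ) : Γ(B, ⊤))).isOpen hy

end Base

section Family

variable {B : Scheme.{0}} {Ω : ℕ → Type} [∀ ℓ, Field (Ω ℓ)]

/-- The constant of a projective family. -/
theorem ProjectiveFamily.exists_bound [IsNoetherian B] (Y : ProjectiveFamily B Ω) :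
    ∃ C : ℕ, ∀ (p : ℕ) (y : B), p.Prime → C ≤ p → ¬ IsInvertibleAt p y → Y.IsSNCL y →
      ∀ ℓ : ℕ, ℓ.Prime → ℓ ≠ p → AF.HasMonodromyIso (Y.strata ℓ y) := by
  classical
  suffices key : ∀ T : Closeds B, ∃ C : ℕ, ∀ (p : ℕ) (y : B), p.Prime → C ≤ p → y ∈ T →
      ¬ IsInvertibleAt p y → Y.IsSNCL y → ∀ ℓ : ℕ, ℓ.Prime → ℓ ≠ p →
        AF.HasMonodromyIso (Y.strata ℓ y) by
    obtain ⟨C, hC⟩ := key ⊤
    exact ⟨C, fun p y hp hCp => hC p y hp hCp trivial⟩
  intro T
  induction T using WellFoundedLT.induction with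
  | ind T ih =>
  by_cases hirr : IsIrreducible (T : Set B)
  · have hgen := hirr.isGenericPoint_genericPoint T.isClosed
    set ξ := hirr.genericPoint with hξdef
    have hξT : ξ ∈ T := hgen.mem
    obtain ⟨T', hξT', hT'⟩ := Y.generic ξ
    obtain ⟨C, hC⟩ := ih (T ⊓ T') (lt_of_le_of_ne inf_le_left fun h => hξT' (by
      have : ξ ∈ T ⊓ T' := by rw [h]; exact hξT
      exact this.2))
    -- the residue characteristic of the generic point
    obtain ⟨c, hc⟩ : ∃ c : ℕ, ∀ r : ℕ, r.Prime → ¬ IsInvertibleAt r ξ → r < c := by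
      by_cases h : ∃ r : ℕ, r.Prime ∧ ¬ IsInvertibleAt r ξ
      · obtain ⟨r, hr, hr'⟩ := h
        refine ⟨r + 1, fun r' hr'' h' => ?_⟩
        rw [isInvertibleAt_unique hr hr'' hr' h']
        exact Nat.lt_succ_self r
      · push Not at h
        exact ⟨0, fun r hr hr' => absurd (h r hr) hr'⟩
    refine ⟨max C c, fun p y hp hCp hyT hyp hy ℓ hℓ hℓp => ?_⟩
    by_cases hyT' : y ∈ T'
    · exact hC p y hp ((le_max_left _ _).trans hCp) ⟨hyT, hyT'⟩ hyp hy ℓ hℓ hℓp
    · have hspec : ξ ⤳ y := hgen.specializes hyT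
      obtain ⟨h1, h2⟩ := hT' y hspec hyT' hy
      have hzero : IsCharZeroAt ξ := by
        intro r hr
        by_contra hcon
        have h3 : ¬ IsInvertibleAt r y := fun h => hcon (isInvertibleAt_of_specializes hspec h)
        have h4 := isInvertibleAt_unique hp hr hyp h3
        have h5 := hc r hr hcon
        have h6 := (le_max_right _ _).trans hCp
        omega
      have hℓy : IsInvertibleAt ℓ y := by
        by_contra hcon
        exact hℓp (isInvertibleAt_unique hp hℓ hyp hcon)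
      exact (h2 ℓ hℓ hℓy).symm.hasMonodromyIso (Y.charZero ξ h1 hzero ℓ hℓ)
  · by_cases hne : (T : Set B).Nonempty
    · have hpre : ¬ IsPreirreducible (T : Set B) := fun h => hirr ⟨hne, h⟩
      rw [isPreirreducible_iff_isClosed_union_isClosed] at hpre
      push Not at hpre
      obtain ⟨Z₁, Z₂, hZ₁, hZ₂, hsub, h1, h2⟩ := hpre
      let T₁ : Closeds B := T ⊓ ⟨Z₁, hZ₁⟩
      let T₂ : Closeds B := T ⊓ ⟨Z₂, hZ₂⟩
      have hT₁ : T₁ < T := lt_of_le_of_ne inf_le_left fun h => h1 (by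
        intro x hx
        have : x ∈ T₁ := by rw [h]; exact hx
        exact this.2)
      have hT₂ : T₂ < T := lt_of_le_of_ne inf_le_left fun h => h2 (by
        intro x hx
        have : x ∈ T₂ := by rw [h]; exact hx
        exact this.2)
      obtain ⟨C₁, hC₁⟩ := ih T₁ hT₁
      obtain ⟨C₂, hC₂⟩ := ih T₂ hT₂
      refine ⟨max C₁ C₂, fun p y hp hCp hyT hyp hy ℓ hℓ hℓp => ?_⟩
      rcases hsub hyT with h | h
      · exact hC₁ p y hp ((le_max_left _ _).trans hCp) ⟨hyT, h⟩ hyp hy ℓ hℓ hℓp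
      · exact hC₂ p y hp ((le_max_right _ _).trans hCp) ⟨hyT, h⟩ hyp hy ℓ hℓ hℓp
    · exact ⟨0, fun p y hp hCp hyT => absurd ⟨_, hyT⟩ hne⟩

end Family

end Pool.Agent.N184.KB
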